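import Mathlib

namespace Pool.Agent.Results.MP_824cb5_co.Two

/-- `A` is a `B_h` set over `ℤ`: distinct coefficient vectors of `ℓ¹`-norm `h` give distinct sums. -/
def Bh (h : ℕ) {G : Type} [AddCommGroup G] (A : Finset G) : Prop :=
  ∀ l l' : G → ℤ, (∑ a ∈ A, |l a|) = (h : ℤ) → (∑ a ∈ A, |l' a|) = (h : ℤ) →
    (∑ a ∈ A, l a • a) = (∑ a ∈ A, l' a • a) → ∀ a ∈ A, l a = l' a

def Q2 (k : ℕ) {G : Type} [AddCommGroup G] (a b : G) : Prop :=
  ∀ p q : ℤ, |p| < (k : ℤ) → |q| < (k : ℤ) → p • a + q • b = 0 → p = 0 ∧ q = 0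

lemma sph (h p q : ℤ) (hp : |p| < h + 1) (hq : |q| < h + 1) : ∃ x y x' y' : ℤ,
    |x| + |y| = h ∧ |x'| + |y'| = h ∧ x - x' = p + q ∧ y - y' = p - q := by
  rw [abs_lt] at hp hq
  rcases le_total 0 p with h1 | h1 <;> rcases le_total 0 q with h2 | h2
  · refine ⟨q, h - q, -p, h - p, ?_, ?_, by ring, by ring⟩ <;> simp only [abs_eq_max_neg] <;> omega
  · refine ⟨h + q, -q, h - p, -p, ?_, ?_, by ring, by ring⟩ <;> simp only [abs_eq_max_neg] <;> omega
  · refine ⟨-h + q, -q, -h - p, -p, ?_, ?_, by ring, by ring⟩ <;> simp only [abs_eq_max_neg] <;> omega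
  · refine ⟨q, -h - q, -p, -h - p, ?_, ?_, by ring, by ring⟩ <;> simp only [abs_eq_max_neg] <;> omega

lemma pair {h : ℕ} {G : Type} [AddCommGroup G] {A : Finset G} (H : Bh h A)
    (h2 : 1 < A.card) : ∃ a b : G, Q2 (h + 1) (a + b) (a - b) := by
  classical
  obtain ⟨a, ha, b, hb, hab⟩ := Finset.one_lt_card.1 h2
  refine ⟨a, b, fun p q h1 h3 h4 => ?_⟩
  obtain ⟨x, y, x', y', e1, e2, e3, e4⟩ := sph h p q (by simpa using h1) (by simpa using h3)
  have := H (fun z => if z = a then x else if z = b then y else 0)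
    (fun z => if z = a then x' else if z = b then y' else 0) (by
    rw [Finset.sum_eq_add_of_mem a b ha hb hab (by intro c _ hc; simp [hc.1, hc.2])]
    simpa [hab.symm] using e1) (by
    rw [Finset.sum_eq_add_of_mem a b ha hb hab (by intro c _ hc; simp [hc.1, hc.2])]
    simpa [hab.symm] using e2) (by
    rw [Finset.sum_eq_add_of_mem a b ha hb hab (by intro c _ hc; simp [hc.1, hc.2]),
      Finset.sum_eq_add_of_mem a b ha hb hab (by intro c _ hc; simp [hc.1, hc.2])]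
    simp only [if_true, hab.symm, if_false]
    rw [show x = x' + (p + q) by omega, show y = y' + (p - q) by omega, ← sub_eq_zero, ← h4]
    module)
  have f1 : x = x' := by simpa using this a ha
  have f2 : y = y' := by simpa [hab.symm] using this b hb
  omega

lemma unpair {h : ℕ} (ht : 1 ≤ h) {G : Type} [AddCommGroup G] {a b : G}
    (H : Q2 (h + 1) (a + b) (a - b)) : ∃ A : Finset G, Bh h A ∧ 2 ≤ A.card := by
  classical
  have hab : a ≠ b := by
    rintro rfl
    have := H 0 1 (by simp) (by simp; omega) (by simp)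
    omega
  refine ⟨{a, b}, fun l l' h1 h2 h3 => ?_, (Finset.card_pair hab).ge⟩
  rw [Finset.sum_pair hab] at h1 h2
  rw [Finset.sum_pair hab, Finset.sum_pair hab] at h3
  simp only [abs_eq_max_neg] at h1 h2
  obtain ⟨p, hp⟩ : ∃ p : ℤ, l a - l' a + (l b - l' b) = 2 * p :=
    ⟨(l a - l' a + (l b - l' b)) / 2, by omega⟩
  have := H p (l a - l' a - p) (by rw [abs_lt]; push_cast; omega) (by rw [abs_lt]; push_cast; omega) (by
    rw [← sub_eq_zero.2 h3, show l b = 2 * p + l' b - (l a - l' a) by omega]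
    module)
  intro c hc
  simp at hc
  rcases hc with rfl | rfl <;> omega

lemma box {G : Type} [AddCommGroup G] [Finite G] (a b : G) (U V : ℕ) (h : Nat.card G < U * V) :
    ∃ x y : ℤ, (x ≠ 0 ∨ y ≠ 0) ∧ |x| < U ∧ |y| < V ∧ x • a + y • b = 0 := by
  classical
  haveI := Fintype.ofFinite G
  obtain ⟨⟨u, j⟩, ⟨u', j'⟩, hne, he⟩ := Fintype.exists_ne_map_eq_of_card_lt
    (fun p : Fin U × Fin V => ((p.1 : ℤ) • a + (p.2 : ℤ) • b))
    (by simpa [Nat.card_eq_fintype_card] using h)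
  have h1 := u.2
  have h2 := u'.2
  have h3 := j.2
  have h4 := j'.2
  refine ⟨(u : ℤ) - u', (j : ℤ) - j', ?_, ?_, ?_, ?_⟩
  · by_contra hc
    push Not at hc
    apply hne
    refine Prod.ext (Fin.ext ?_) (Fin.ext ?_) <;> simp only <;> omega
  · rw [abs_lt]; omega
  · rw [abs_lt]; omega
  · simp only at he
    rw [sub_smul, sub_smul, ← sub_eq_zero.2 he]; abel

lemma lower {k : ℕ} {G : Type} [AddCommGroup G] [Finite G] {a b : G}
    (h : Q2 k a b) : k * k ≤ Nat.card G := by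
  by_contra hc
  push Not at hc
  obtain ⟨x, y, h0, h1, h2, h3⟩ := box a b k k hc
  have := h x y h1 h2 h3
  omega

lemma kill {k n : ℕ} (hn0 : 0 < n) (hn : n < 2 * (k * k)) {a b : ZMod n}
    (h : Q2 k a b) (g : ℤ) (ha : g • a = 0) (hb : g • b = 0) : (n : ℤ) ∣ g := by
  haveI : NeZero n := ⟨hn0.ne'⟩
  let K : AddSubgroup (ZMod n) := (zsmulAddGroupHom g : ZMod n →+ ZMod n).ker
  have hK : Q2 k (⟨a, ha⟩ : K) ⟨b, hb⟩ := fun x y h1 h1' h2 =>
    h x y h1 h1' (by simpa using congrArg Subtype.val h2)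
  have h1 := lower hK
  have h2 := K.card_mul_index
  rw [Nat.card_zmod] at h2
  have h3 : K.index = 1 := by
    rcases hi : K.index with _ | _ | k
    · rw [hi] at h2; omega
    · rfl
    · rw [hi] at h2; nlinarith
  rw [AddSubgroup.index_eq_one] at h3
  have h4 : (1 : ZMod n) ∈ K := by rw [h3]; trivial
  have h5 : g • (1 : ZMod n) = 0 := h4
  rw [← ZMod.intCast_zmod_eq_zero_iff_dvd]
  simpa using h5

lemma vec {k n : ℕ} (hn0 : 0 < n) (hn : n < (k + 1) * k) {a b : ZMod n}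
    (h : Q2 k a b) : ∃ c : ℤ, |c| < k ∧ (k : ℤ) • a + c • b = 0 := by
  haveI : NeZero n := ⟨hn0.ne'⟩
  obtain ⟨x, y, h0, h1, h2, h3⟩ := box a b (k + 1) k (by rwa [Nat.card_zmod])
  have h4 : x = k ∨ x = -k := by
    by_contra hc
    have := h x y (by rw [abs_lt] at h1 ⊢; omega) h2 h3
    omega
  rcases h4 with rfl | rfl
  · exact ⟨y, h2, h3⟩
  · refine ⟨-y, by rwa [abs_neg], ?_⟩
    rw [← neg_eq_zero, ← h3]; module

lemma key {k n : ℕ} (hk : k % 2 = 0) (h2 : n % 2 = 0) (hn0 : 0 < n) (hn : n < (k + 1) * k)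
    {a b : ZMod n} (h : Q2 k (a + b) (a - b)) : False := by
  haveI : NeZero n := ⟨hn0.ne'⟩
  have h' : Q2 k (a - b) (a + b) := fun x y e1 e2 e3 => (h y x e2 e1 (by rwa [add_comm])).symm
  have h1 := lower h
  rw [Nat.card_zmod] at h1
  obtain ⟨c, hc, ec⟩ := vec hn0 hn h
  obtain ⟨d, hd, ed⟩ := vec hn0 hn h'
  rw [abs_lt] at hc hd
  have hcd : c * d ≤ 0 := by
    by_contra hp
    push Not at hp
    rcases pos_and_pos_or_neg_and_neg_of_mul_pos hp with ⟨p1, p2⟩ | ⟨p1, p2⟩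
    · have := h (k - d) (c - k) (by rw [abs_lt]; omega) (by rw [abs_lt]; omega) (by
        simp only [zsmul_eq_mul] at ec ed ⊢; push_cast at ec ed ⊢; linear_combination ec - ed)
      omega
    · have := h (k + d) (c + k) (by rw [abs_lt]; omega) (by rw [abs_lt]; omega) (by
        simp only [zsmul_eq_mul] at ec ed ⊢; push_cast at ec ed ⊢; linear_combination ec + ed)
      omega
  have hk1 : 1 ≤ k := by omega
  have hlt : n < 2 * (k * k) := by nlinarith
  have hz1 : (k * k : ℤ) ≤ n := by exact_mod_cast h1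
  have hb : -(c * d) < k * k := by nlinarith
  obtain ⟨j, hj⟩ : ∃ j : ℤ, (k : ℤ) = 2 * j := ⟨k / 2, by omega⟩
  obtain ⟨m, hm⟩ : ∃ m : ℤ, (n : ℤ) = 2 * m := ⟨n / 2, by omega⟩
  have hm0 : (2 * m : ZMod n) = 0 := by
    have : ((n : ℤ) : ZMod n) = 0 := by simp
    rw [hm] at this; push_cast at this; exact this
  rw [hj] at ec ed
  simp only [zsmul_eq_mul] at ec ed
  have nm : ¬ ((m : ZMod n) * (a - b) = 0) := fun e => by
    have := Int.le_of_dvd (by omega) (kill hn0 hlt h m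
      (by simp only [zsmul_eq_mul]; linear_combination e + b * hm0) (by simpa using e))
    omega
  obtain ⟨c', rfl⟩ : ∃ c', c = 2 * c' := by
    rcases Int.even_or_odd' c with ⟨c', e | e⟩
    · exact ⟨c', e⟩
    · exfalso; apply nm; rw [e] at ec; push_cast at ec
      linear_combination (m : ZMod n) * ec - (j * (a + b) + c' * (a - b)) * hm0
  obtain ⟨d', rfl⟩ : ∃ d', d = 2 * d' := by
    rcases Int.even_or_odd' d with ⟨d', e | e⟩
    · exact ⟨d', e⟩
    · exfalso; apply nm; rw [e] at ed; push_cast at ed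
      linear_combination (m : ZMod n) * ed - (j * (a - b) + d' * (a + b) + b) * hm0
  push_cast at ec ed
  have := Int.le_of_dvd (by nlinarith) (kill hn0 hlt h (2 * j * j - 2 * c' * d')
    (by simp only [zsmul_eq_mul]; push_cast
        linear_combination (j : ZMod n) * ec - (c' : ZMod n) * ed)
    (by simp only [zsmul_eq_mul]; push_cast
        linear_combination (j : ZMod n) * ed - (d' : ZMod n) * ec))
  nlinarith

lemma mk {k n : ℕ} (a b e w : ℤ) (he : IsCoprime (n : ℤ) e) (h1 : a + b = e) (h2 : a - b = e * w)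
    (hw : (k : ℤ) ≤ w) (hn : ((k : ℤ) - 1) * (w + 1) < n) :
    Q2 k ((a : ZMod n) + b) ((a : ZMod n) - b) := fun p q hp hq h => by
  have h3 : (n : ℤ) ∣ e * (p + w * q) := by
    rw [← ZMod.intCast_zmod_eq_zero_iff_dvd, ← h, ← Int.cast_add, ← Int.cast_sub, h1, h2]
    simp only [zsmul_eq_mul]; push_cast; ring
  have hk := abs_nonneg p
  have h4 : p + w * q = 0 := by
    refine Int.eq_zero_of_abs_lt_dvd (he.dvd_of_dvd_mul_left h3) ?_
    have := abs_add_le p (w * q)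
    rw [abs_mul, abs_of_nonneg (by omega : 0 ≤ w)] at this
    nlinarith
  have h5 : p = 0 := Int.eq_zero_of_abs_lt_dvd (m := w) ⟨-q, by linarith⟩ (by omega)
  refine ⟨h5, ?_⟩
  rw [h5, zero_add, mul_eq_zero] at h4
  omega

theorem cyc (h n : ℕ) (hh : 2 ≤ h) (hn : 0 < n) :
    (∃ A : Finset (ZMod n), Bh h A ∧ 2 ≤ A.card) ↔
      (h + 1) ^ 2 ≤ n ∧ (h % 2 = 0 ∨ n % 2 = 1 ∨ (h + 1) * (h + 2) ≤ n) := by
  haveI : NeZero n := ⟨hn.ne'⟩
  constructor
  · rintro ⟨A, hA, h2⟩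
    obtain ⟨a, b, hab⟩ := pair hA h2
    have h1 := lower hab
    rw [Nat.card_zmod] at h1
    refine ⟨by nlinarith, ?_⟩
    by_contra hc
    push Not at hc
    exact key (by omega) (by omega) hn (by nlinarith) hab
  · rintro ⟨h1, h2⟩
    have hz : ((h : ℤ) + 1) ^ 2 ≤ n := by exact_mod_cast h1
    rcases Nat.mod_two_eq_zero_or_one h with h0 | h0
    · obtain ⟨r, hr⟩ : ∃ r : ℤ, (h : ℤ) = 2 * r := ⟨h / 2, by omega⟩
      exact unpair (by omega) (mk (r + 1) (-r) 1 (h + 1) isCoprime_one_right (by ring) (by omega)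
        (by push_cast; omega) (by push_cast; nlinarith))
    · rcases h2 with h2 | h2 | h2
      · omega
      · exact unpair (by omega) (mk (h + 2) (-h) 2 (h + 1) ⟨1, -(n / 2), by omega⟩ (by ring) (by ring)
          (by push_cast; omega) (by push_cast; nlinarith))
      · have hz2 : ((h : ℤ) + 1) * (h + 2) ≤ n := by exact_mod_cast h2
        obtain ⟨r, hr⟩ : ∃ r : ℤ, (h : ℤ) = 2 * r + 1 := ⟨h / 2, by omega⟩
        exact unpair (by omega) (mk (r + 2) (-r - 1) 1 (h + 2) isCoprime_one_right (by ring) (by omega)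
          (by push_cast; omega) (by push_cast; nlinarith))

theorem result (h : ℕ) (hh : 2 ≤ h) :
    (∀ (G : Type) [AddCommGroup G] [Finite G], (∃ A : Finset G, Bh h A ∧ 2 ≤ A.card) →
      (h + 1) ^ 2 ≤ Nat.card G) ∧
    (∀ n : ℕ, 0 < n → ((∃ A : Finset (ZMod n), Bh h A ∧ 2 ≤ A.card) ↔
      (h + 1) ^ 2 ≤ n ∧ (h % 2 = 0 ∨ n % 2 = 1 ∨ (h + 1) * (h + 2) ≤ n))) ∧
    IsLeast {N : ℕ | 0 < N ∧ ∀ n : ℕ, N ≤ n → ∃ A : Finset (ZMod n), Bh h A ∧ 2 ≤ A.card}
      (if h % 2 = 0 then (h + 1) ^ 2 else (h + 1) * (h + 2) - 1) := by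
  have e1 : (h + 1) ^ 2 = h * h + 2 * h + 1 := by ring
  have e2 : (h + 1) * (h + 2) = h * h + 3 * h + 2 := by ring
  have e3 : h % 2 = 1 → h * h % 2 = 1 := fun e => by rw [Nat.mul_mod, e]
  refine ⟨?_, fun n hn => cyc h n hh hn, ⟨by split_ifs <;> omega, fun n hn => ?_⟩, ?_⟩
  · rintro G _ _ ⟨A, hA, h2⟩
    obtain ⟨a, b, hab⟩ := pair hA h2
    have := lower hab
    nlinarith
  · split_ifs at hn <;> exact (cyc h n hh (by omega)).2 (by omega)
  · rintro N ⟨hN, H⟩
    split_ifs with h0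
    · exact ((cyc h N hh hN).1 (H N le_rfl)).1
    · by_contra hc
      have := (cyc h (h * h + 3 * h) hh (by omega)).1 (H _ (by omega))
      omega

end Pool.Agent.Results.MP_824cb5_co.Two
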